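import Pool.Agent.Helper91.SY.Goals

/-!
# Packet SY-NM: the Nemytskii operator is smooth
-/

set_option autoImplicit false

open Set Filter Topology
open scoped ContDiff

namespace Pool.Agent.Helper13.SY

open Pool.Agent.Helper91.SY

section
variable {E F : Type} [NormedAddCommGroup E] [NormedSpace ℝ E] [NormedAddCommGroup F]
  [NormedSpace ℝ F]

/-- pointwise application -/
noncomputable def app (E F : Type) [NormedAddCommGroup E] [NormedSpace ℝ E]
    [NormedAddCommGroup F] [NormedSpace ℝ F] :
    C(unitInterval, E →L[ℝ] F) →L[ℝ] C(unitInterval, E) →L[ℝ] C(unitInterval, F) :=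
  LinearMap.mkContinuous₂
    (LinearMap.mk₂ ℝ (fun (A : C(unitInterval, E →L[ℝ] F)) (β : C(unitInterval, E)) =>
        (⟨fun s => A s (β s), A.continuous.clm_apply β.continuous⟩ : C(unitInterval, F)))
      (by intro A A' β; ext s; simp) (by intro c A β; ext s; simp)
      (by intro A β β'; ext s; simp) (by intro c A β; ext s; simp)) 1
    (by
      intro A β
      rw [one_mul, ContinuousMap.norm_le _ (by positivity)]
      intro s
      refine ((A s).le_opNorm (β s)).trans ?_
      exact mul_le_mul (A.norm_coe_le_norm s) (β.norm_coe_le_norm s) (norm_nonneg _)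
        (norm_nonneg A))

theorem app_apply (A : C(unitInterval, E →L[ℝ] F)) (β : C(unitInterval, E)) (s : unitInterval) :
    app E F A β s = A s (β s) := rfl

/-- uniform first order expansion along a compact curve -/
theorem expand {f : E → F} (hf : ContDiff ℝ ∞ f) (α : C(unitInterval, E)) {c : ℝ} (hc : 0 < c) :
    ∃ δ > 0, ∀ (s : unitInterval) (h : E), ‖h‖ < δ →
      ‖f (α s + h) - f (α s) - fderiv ℝ f (α s) h‖ ≤ c * ‖h‖ := by
  have hcont : Continuous (fderiv ℝ f) := hf.continuous_fderiv (by simp)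
  have hK : IsCompact (Set.range α) := isCompact_range α.continuous
  have h1 := hK.uniformContinuousAt_of_continuousAt (fderiv ℝ f)
    (fun a _ => hcont.continuousAt) (Metric.dist_mem_uniformity hc)
  obtain ⟨δ, hδ, h2⟩ := Metric.mem_uniformity_dist.1 h1
  refine ⟨δ, hδ, fun s h hh => ?_⟩
  have h3 := (convex_ball (α s) δ).norm_image_sub_le_of_norm_hasFDerivWithin_le'
    (f := f) (f' := fderiv ℝ f) (C := c) (φ := fderiv ℝ f (α s)) (x := α s) (y := α s + h)
    (fun x _ => ((hf.differentiable (by simp)) x).hasFDerivAt.hasFDerivWithinAt)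
    (fun x hx => ?_) (Metric.mem_ball_self hδ) (by simpa [Metric.mem_ball] using hh)
  · rwa [add_sub_cancel_left] at h3
  · have h4 := h2 (a := α s) (b := x) (by rwa [dist_comm]) ⟨s, rfl⟩
    have h5 : dist (fderiv ℝ f (α s)) (fderiv ℝ f x) < c := h4
    rw [← dist_eq_norm, dist_comm]
    exact h5.le

/-- the derivative of the Nemytskii operator -/
theorem hasFDerivAt_nem {f : E → F} (hf : ContDiff ℝ ∞ f) (hf' : Continuous (fderiv ℝ f))
    (α : C(unitInterval, E)) :
    HasFDerivAt (fun α : C(unitInterval, E) => (⟨f, hf.continuous⟩ : C(E, F)).comp α)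
      (app E F ((⟨fderiv ℝ f, hf'⟩ : C(E, E →L[ℝ] F)).comp α)) α := by
  rw [hasFDerivAt_iff_isLittleO_nhds_zero, Asymptotics.isLittleO_iff]
  intro c hc
  obtain ⟨δ, hδ, h⟩ := expand hf α hc
  filter_upwards [Metric.ball_mem_nhds (0 : C(unitInterval, E)) hδ] with β hβ
  rw [mem_ball_zero_iff] at hβ
  rw [ContinuousMap.norm_le _ (by positivity)]
  intro s
  refine (h s (β s) ((β.norm_coe_le_norm s).trans_lt hβ)).trans ?_
  exact mul_le_mul_of_nonneg_left (β.norm_coe_le_norm s) hc.le

end

theorem nem_contDiff (k : ℕ) : ∀ (E F : Type) [NormedAddCommGroup E] [NormedSpace ℝ E]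
    [NormedAddCommGroup F] [NormedSpace ℝ F] (f : E → F) (hf : ContDiff ℝ ∞ f),
    ContDiff ℝ k (fun α : C(unitInterval, E) => (⟨f, hf.continuous⟩ : C(E, F)).comp α) := by
  induction k with
  | zero =>
    intro E F _ _ _ _ f hf
    rw [Nat.cast_zero, contDiff_zero]
    exact ContinuousMap.continuous_postcomp _
  | succ k ih =>
    intro E F _ _ _ _ f hf
    have hf' : ContDiff ℝ ∞ (fderiv ℝ f) := hf.fderiv_right (by simp)
    rw [Nat.cast_succ, contDiff_succ_iff_hasFDerivAt]
    refine ⟨fun α => app E F ((⟨fderiv ℝ f, hf'.continuous⟩ : C(E, E →L[ℝ] F)).comp α), ?_,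
      fun α => hasFDerivAt_nem hf hf'.continuous α⟩
    have hM : ContDiff ℝ k (fun A : C(unitInterval, E →L[ℝ] F) => app E F A) := by fun_prop
    exact hM.comp (ih E (E →L[ℝ] F) (fderiv ℝ f) hf')

/-- PACKET NM -/
theorem nm_ : StmtNM := by
  intro E F _ _ _ _ f hf
  rw [contDiff_infty]
  intro k
  exact nem_contDiff k E F f hf

end Pool.Agent.Helper13.SY
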